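import Pool.Agent.H66.XP.TG
import Pool.Agent.H30.EH.MUV
import Pool.Agent.H30.EH.WLM
import Pool.Agent.H48.NB.WLK
import Pool.Agent.H36.NB.DIR

/-!
# Board xpm_modules (MP_0f8dca_lc), row BLC: a function does not see a block if it does not see a
copy and the correction string
-/

set_option autoImplicit false

namespace Pool.Agent.H97.XP

open Finset Pool.Agent.H6.NB Pool.Agent.H70.EH Pool.Agent.H78.XQ
open Pool.Agent.H70.OQ (ic)
open Pool.Agent.H66.IQ Pool.Agent.H66.XP

theorem blc_muv : Pool.Agent.H70.EH.T_MUV :=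
  Pool.Agent.H30.EH.muv Pool.Agent.H30.EH.wlm
    (Pool.Agent.H48.NB.WLK.t_wlk Pool.Agent.H36.NB.DIR.t_dir)

theorem blc_one {U : Type} [Fintype U] [DecidableEq U] (b : Bool) (q : ℕ) :
    ∑ P : U → VV q → Bool, ∏ u, mv b q (P u) = 1 := by
  have h1 := Finset.prod_univ_sum (fun _ : U => (univ : Finset (VV q → Bool)))
    (fun _ p => mv b q p)
  rw [Fintype.piFinset_univ] at h1
  rw [← h1]
  refine Finset.prod_eq_one fun u _ => ?_
  exact (blc_muv b q).2.1

theorem blc_mn_abs {V : Type} [Fintype V] [DecidableEq V] {T : Type} [Fintype T]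
    (a b : T → ℝ) (f : T → (V → Bool) → ℝ) (η : ℝ)
    (h : ∀ y, |∑ p, a p * f p y - ∑ p, b p * f p y| ≤ η) :
    |∑ p, a p * mn (f p) - ∑ p, b p * mn (f p)| ≤ η := by
  have hc : (0 : ℝ) < 2 ^ Fintype.card V := by positivity
  have key : ∀ a : T → ℝ, ∑ p, a p * mn (f p) =
      (∑ y, ∑ p, a p * f p y) / 2 ^ Fintype.card V := by
    intro a
    rw [Finset.sum_comm, Finset.sum_div]
    refine Finset.sum_congr rfl fun p _ => ?_
    unfold mn
    rw [← Finset.mul_sum]
    ring
  rw [key, key, ← sub_div, ← Finset.sum_sub_distrib, abs_div, abs_of_pos hc, div_le_iff₀ hc]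
  refine (Finset.abs_sum_le_sum_abs _ _).trans ?_
  refine (Finset.sum_le_sum fun y _ => h y).trans ?_
  rw [Finset.sum_const, Finset.card_univ, nsmul_eq_mul]
  have : Fintype.card (V → Bool) = 2 ^ Fintype.card V := by simp
  rw [this]
  push_cast
  linarith

theorem blc_mn01 {V : Type} [Fintype V] [DecidableEq V] (f : (V → Bool) → ℝ)
    (h : ∀ y, 0 ≤ f y ∧ f y ≤ 1) : 0 ≤ mn f ∧ mn f ≤ 1 := by
  have hc : (0 : ℝ) < 2 ^ Fintype.card V := by positivity
  unfold mn
  refine ⟨div_nonneg (Finset.sum_nonneg fun y _ => (h y).1) hc.le, ?_⟩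
  rw [div_le_one hc]
  refine (Finset.sum_le_sum fun y _ => (h y).2).trans ?_
  rw [Finset.sum_const, Finset.card_univ, nsmul_eq_mul, mul_one]
  have : Fintype.card (V → Bool) = 2 ^ Fintype.card V := by simp
  rw [this]
  push_cast
  exact le_rfl

theorem pf_BLC (hMRS : T_MRS) (hSYC : T_SYC) (hCPU : Pool.Agent.H66.IP.T_CPU) : T_BLC := by
  classical
  intro r l q R n hSz b K B F e₁ e₂ hK1 hK2 hF01 he₁ he₂ hF1 hF2
  obtain ⟨W, hW, hs1, hs0⟩ := hMRS r l q R n hSz b K B F hK1 hK2
  have hmv0 : ∀ (b : Bool) (P : (Fin (2 * l) → Bool) → VV q → Bool), 0 ≤ ∏ u, mv b q (P u) :=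
    fun b P => Finset.prod_nonneg fun u _ => (blc_muv b q).1 _
  set G : ((Fin (2 * l) → Bool) → VV q → Bool) → ℝ := fun P =>
    mn (rst (kp K B) fun h => F (ov K.1 B.1 P, h)) with hG
  have hG01 : ∀ P, 0 ≤ G P ∧ G P ≤ 1 := fun P => blc_mn01 _ fun y => hF01 _
  rw [hs1, hs0]
  -- step one
  have hstep1 : |∑ P : (Fin (2 * l) → Bool) → VV q → Bool,
      (∏ u, mv b q (P u)) * (ic (SayC q l b (ov K.1 B.1 P)) *
      wm (kp K B) (W (ov K.1 B.1 P)) fun h => F (ov K.1 B.1 P, h)) -
      ∑ P : (Fin (2 * l) → Bool) → VV q → Bool, (∏ u, mv b q (P u)) * G P| ≤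
      1 / 2 ^ l + e₂ := by
    rw [← Finset.sum_sub_distrib]
    refine (Finset.abs_sum_le_sum_abs _ _).trans ?_
    have hpt : ∀ P : (Fin (2 * l) → Bool) → VV q → Bool,
        |(∏ u, mv b q (P u)) * (ic (SayC q l b (ov K.1 B.1 P)) *
          wm (kp K B) (W (ov K.1 B.1 P)) fun h => F (ov K.1 B.1 P, h)) -
          (∏ u, mv b q (P u)) * G P| ≤
        (∏ u, mv b q (P u)) * (if SayC q l b (ov K.1 B.1 P) then 0 else 1) +
          (∏ u, mv b q (P u)) * e₂ := by
      intro P
      have hp := hmv0 b P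
      by_cases hS : SayC q l b (ov K.1 B.1 P)
      · have h1 : ic (SayC q l b (ov K.1 B.1 P)) = 1 := by
          unfold ic
          rw [if_pos hS]
        rw [h1, one_mul, if_pos hS, mul_zero, zero_add, ← mul_sub, abs_mul, abs_of_nonneg hp]
        exact mul_le_mul_of_nonneg_left (hF2 _ _ (hW _ hS).2.1) hp
      · have h1 : ic (SayC q l b (ov K.1 B.1 P)) = 0 := by
          unfold ic
          rw [if_neg hS]
        rw [h1, zero_mul, mul_zero, zero_sub, abs_neg, if_neg hS, mul_one,
          abs_of_nonneg (mul_nonneg hp (hG01 P).1)]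
        have h2 : (∏ u, mv b q (P u)) * G P ≤ (∏ u, mv b q (P u)) * 1 :=
          mul_le_mul_of_nonneg_left (hG01 P).2 hp
        have h3 := mul_nonneg hp he₂
        linarith
    refine (Finset.sum_le_sum fun P _ => hpt P).trans ?_
    rw [Finset.sum_add_distrib, ← Finset.sum_mul, blc_one, one_mul]
    have := hSYC r l q R n hSz b K.1 B.1 hK1
    have h5 : ∑ P : (Fin (2 * l) → Bool) → VV q → Bool, (∏ u, mv b q (P u)) *
        (if SayC q l b (ov K.1 B.1 P) then (0 : ℝ) else 1) ≤ 1 / 2 ^ l := this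
    linarith
  -- step two
  have hstep2 : |∑ P, (∏ u, mv b q (P u)) * G P - ∑ P, (∏ u, mv false q (P u)) * G P| ≤
      Fintype.card (Fin (2 * l) → Bool) * e₁ := by
    refine hCPU (Fin (2 * l) → Bool) (VV q → Bool) (mv b q) (mv false q) G _ (blc_muv b q).1
      (blc_muv false q).1 (blc_muv b q).2.1 (blc_muv false q).2.1 fun P u => ?_
    by_cases hu : u ∈ K.1
    · have h1 : ∀ p, G (Function.update P u p) = G P := by
        intro p
        have h2 : ov K.1 B.1 (Function.update P u p) = ov K.1 B.1 P := by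
          funext u'
          unfold ov
          by_cases hu' : u' ∈ K.1
          · rw [if_pos hu', if_pos hu']
          · have hne : u' ≠ u := fun h => hu' (h ▸ hu)
            rw [if_neg hu', if_neg hu', Function.update_of_ne hne]
        simp only [hG, h2]
      simp_rw [h1]
      rw [← Finset.sum_mul, ← Finset.sum_mul, (blc_muv b q).2.1, (blc_muv false q).2.1, sub_self,
        abs_zero]
      exact he₁
    · have h2 : ∀ p, ov K.1 B.1 (Function.update P u p) =
          Function.update (ov K.1 B.1 P) u p := by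
        intro p
        funext u'
        by_cases hu' : u' = u
        · rw [hu', Function.update_self]
          unfold ov
          rw [if_neg hu, Function.update_self]
        · rw [Function.update_of_ne hu']
          unfold ov
          rw [Function.update_of_ne hu']
      simp only [hG, h2]
      refine blc_mn_abs (mv b q) (mv false q)
        (fun p => rst (kp K B) fun h => F (Function.update (ov K.1 B.1 P) u p, h)) _ fun y => ?_
      rcases b with _ | _
      · rw [sub_self, abs_zero]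
        exact he₁
      · exact hF1 _ u _
  have hcU : (Fintype.card (Fin (2 * l) → Bool) : ℝ) = 2 ^ (2 * l) := by
    have : Fintype.card (Fin (2 * l) → Bool) = 2 ^ (2 * l) := by simp
    rw [this]
    push_cast
    rfl
  rw [hcU] at hstep2
  have h7 := abs_sub_le (∑ P : (Fin (2 * l) → Bool) → VV q → Bool,
      (∏ u, mv b q (P u)) * (ic (SayC q l b (ov K.1 B.1 P)) *
      wm (kp K B) (W (ov K.1 B.1 P)) fun h => F (ov K.1 B.1 P, h)))
    (∑ P : (Fin (2 * l) → Bool) → VV q → Bool, (∏ u, mv b q (P u)) * G P)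
    (∑ P : (Fin (2 * l) → Bool) → VV q → Bool, (∏ u, mv false q (P u)) * G P)
  linarith

end Pool.Agent.H97.XP
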