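import Pool.Agent.H66.XP.TH

/-!
# Board xpm_modules (MP_0f8dca_lc), row PHZ: the values of the tables are rarely false
-/

set_option autoImplicit false

namespace Pool.Agent.H97.XP

open Finset Pool.Agent.H6.NB Pool.Agent.H70.OQ Pool.Agent.H70.EH Pool.Agent.H70.EI Pool.Agent.H78.XQ
open Pool.Agent.H66.IQ Pool.Agent.H66.AV Pool.Agent.H66.XP

/-- Counting: a bad value of one coordinate is changed injectively. -/
theorem phz_count {A B V : Type} [Fintype A] [DecidableEq A] [Fintype B] [Fintype V] (x : A)
    (P : B → Prop) [DecidablePred fun z : A → B => P (z x)] (g : B → V → B)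
    (hg : ∀ b b' v v', P b → P b' → g b v = g b' v' → b = b' ∧ v = v') :
    (univ.filter fun z : A → B => P (z x)).card * Fintype.card V ≤ Fintype.card (A → B) := by
  classical
  rw [← Finset.card_univ (α := V), ← Finset.card_product, ← Finset.card_univ (α := A → B)]
  refine Finset.card_le_card_of_injOn
    (fun p : (A → B) × V => Function.update p.1 x (g (p.1 x) p.2)) (fun _ _ => by simp) ?_
  rintro ⟨z, v⟩ hz ⟨z', v'⟩ hz' h
  simp only [Finset.coe_product, Set.mem_prod, Finset.mem_coe, Finset.mem_filter,
    Finset.mem_univ, true_and, and_true] at hz hz'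
  have h1 : g (z x) v = g (z' x) v' := by
    have := congrFun h x
    simpa using this
  obtain ⟨h2, h3⟩ := hg _ _ _ _ hz hz' h1
  have h4 : z = z' := by
    funext y
    by_cases hy : y = x
    · rw [hy, h2]
    · have := congrFun h y
      simpa [hy] using this
  rw [h4, h3]

/-- A value of the next level is false only at the hidden child. -/
theorem phz_sv {X : Type} {Y : ℕ → Type} [∀ i, DecidableEq (Y i)] (b : X → Bool) (k : ℕ)
    (H : Hid X Y (k + 1)) (a : Node X Y k) (y : Y k)
    (h : sv b (k + 1) H ((a, y) : Node X Y k × Y k) = false) :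
    y = (show Hid X Y k × (Node X Y k → Y k) from H).2 a := by
  have h1 : (!(sv b k (show Hid X Y k × (Node X Y k → Y k) from H).1 a &&
      decide (y = (show Hid X Y k × (Node X Y k → Y k) from H).2 a))) = false := h
  rw [Bool.not_eq_false', Bool.and_eq_true] at h1
  exact of_decide_eq_true h1.2

/-- The rows are coded by the children. -/
def phz_w (n k : ℕ) (v : Fin n → Bool) : Ys n k :=
  fun i => if h : i.val < n then v ⟨i.val, h⟩ else false

theorem phz_w_inj (n k : ℕ) (v v' : Fin n → Bool) (h : phz_w n k v = phz_w n k v') : v = v' := by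
  funext i
  have hi : i.val < 2 ^ (k + 1) * n :=
    lt_of_lt_of_le i.isLt (Nat.le_mul_of_pos_left n (by positivity))
  have h1 := congrFun h ⟨i.val, hi⟩
  simpa [phz_w, i.isLt] using h1

theorem pf_PHZ : T_PHZ := by
  classical
  intro n k x q
  have hV : Fintype.card (Fin n → Bool) = 2 ^ n := by simp
  rw [← hV]
  rcases k with _ | k
  · have hmain := phz_count (A := Fin n → Bool)
      (B := Bool × Hid (Fin n → Bool) (Ys n) 0 × (Fin n → Bool)) (V := Fin n → Bool) x
      (fun b => (if b.1 then tabU 0 b.2.1 b.2.2 else tabT 0 b.2.1) q = false)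
      (fun b v => (b.1, b.2.1, v)) (by
        rintro ⟨b, H, u⟩ ⟨b', H', u'⟩ v v' hb hb' h
        have hu : ∀ (b : Bool) (H : Hid (Fin n → Bool) (Ys n) 0) (u : Fin n → Bool),
            (if b then tabU 0 H u else tabT 0 H) q = false → u = q := by
          intro b H u hb
          cases b
          · exact absurd hb (by simp [tabT, sv])
          · have h1 : @Eq (Fin n → Bool) q u := by
              simpa [tabU, sv] using hb
            exact h1.symm
        have e1 := hu b H u hb
        have e2 := hu b' H' u' hb'
        simp only [Prod.mk.injEq] at h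
        obtain ⟨h1, h2, h3⟩ := h
        exact ⟨by rw [h1, h2, e1, e2], h3⟩)
    exact hmain
  · obtain ⟨a, y⟩ : Node (Fin n → Bool) (Ys n) k × Ys n k := q
    have hmain := phz_count (A := Fin n → Bool)
      (B := Bool × (Hid (Fin n → Bool) (Ys n) k × (Node (Fin n → Bool) (Ys n) k → Ys n k)) ×
        (Fin n → Bool)) (V := Fin n → Bool) x
      (fun b => (if b.1 then tabU (k + 1) b.2.1 b.2.2 else tabT (k + 1) b.2.1)
        ((a, y) : Node (Fin n → Bool) (Ys n) k × Ys n k) = false)
      (fun b v => (b.1, (b.2.1.1, Function.update b.2.1.2 a (phz_w n k v)), b.2.2)) (by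
        rintro ⟨b, ⟨H, G⟩, u⟩ ⟨b', ⟨H', G'⟩, u'⟩ v v' hb hb' h
        have hy : ∀ (b : Bool) (H : Hid (Fin n → Bool) (Ys n) k)
            (G : Node (Fin n → Bool) (Ys n) k → Ys n k) (u : Fin n → Bool),
            (if b then tabU (k + 1) ((H, G) : Hid (Fin n → Bool) (Ys n) k ×
              (Node (Fin n → Bool) (Ys n) k → Ys n k)) u else tabT (k + 1) ((H, G) :
              Hid (Fin n → Bool) (Ys n) k × (Node (Fin n → Bool) (Ys n) k → Ys n k)))
              ((a, y) : Node (Fin n → Bool) (Ys n) k × Ys n k) = false → y = G a := by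
          intro b H G u hb
          cases b
          · exact phz_sv _ k _ a y hb
          · exact phz_sv _ k _ a y hb
        have e1 := hy b H G u hb
        have e2 := hy b' H' G' u' hb'
        simp only [Prod.mk.injEq] at h
        obtain ⟨h1, ⟨h2, h3⟩, h4⟩ := h
        have h5 : phz_w n k v = phz_w n k v' := by
          have := congrFun h3 a
          simpa using this
        have h6 : G = G' := by
          funext c
          by_cases hc : c = a
          · rw [hc, ← e1, ← e2]
          · have := congrFun h3 c
            simpa [hc] using this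
        exact ⟨by rw [h1, h2, h4, h6], phz_w_inj n k _ _ h5⟩)
    exact hmain

end Pool.Agent.H97.XP
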